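import Pool.Agent.Helper81.AD2.Goals

namespace Pool.Agent.Helper1.AD2.TLC

open Pool.Agent.Helper81.AD2

/-- the sigma equivalence -/
def eqv {n : ℕ} (Q : Equiv.Perm (Fin (n + 1)) → Prop) :
    {σ : Equiv.Perm (Fin (n + 1)) // Q σ} ≃
      Σ p : Fin (n + 1), {e : Equiv.Perm (Fin n) // Q (Equiv.Perm.decomposeFin.symm (p, e))} :=
  (Equiv.subtypeEquivOfSubtype (p := Q) Equiv.Perm.decomposeFin.symm).symm.trans
    (Equiv.subtypeProdEquivSigmaSubtype fun (p : Fin (n + 1)) (e : Equiv.Perm (Fin n)) =>
      Q (Equiv.Perm.decomposeFin.symm (p, e)))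

theorem t : S_TLC := by
  intro X n φ D E
  unfold Nc
  rw [Nat.card_congr (eqv _), Nat.card_sigma, Fin.sum_univ_succ]
  congr 1
  · apply Nat.card_congr
    apply Equiv.subtypeEquivRight
    intro e
    refine exists_congr fun f => ?_
    refine and_congr_right fun _ => and_congr_right fun _ => ?_
    constructor
    · intro h x
      have := h x.succ
      rw [Equiv.Perm.decomposeFin_symm_apply_succ, Equiv.swap_self, Equiv.refl_apply] at this
      exact this
    · intro h i
      refine Fin.cases ?_ (fun x => ?_) i
      · rw [Equiv.Perm.decomposeFin_symm_apply_zero]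
      · rw [Equiv.Perm.decomposeFin_symm_apply_succ, Equiv.swap_self, Equiv.refl_apply]
        exact h x
  · apply Finset.sum_congr rfl
    intro j _
    apply Nat.card_congr
    apply Equiv.subtypeEquivRight
    intro e
    refine exists_congr fun f => ?_
    refine and_congr_right fun _ => ?_
    constructor
    · rintro ⟨hE, h⟩
      have h0 : f (φ 0) = f (φ j.succ) := by
        have := h 0
        rw [Equiv.Perm.decomposeFin_symm_apply_zero] at this
        exact this.symm
      refine ⟨?_, ?_⟩
      · rintro a b (hab | ⟨rfl, rfl⟩)
        · exact hE a b hab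
        · exact h0
      · intro x
        have := h x.succ
        rw [Equiv.Perm.decomposeFin_symm_apply_succ] at this
        by_cases hx : e x = j
        · rw [hx, Equiv.swap_apply_right] at this
          show f (φ (e x).succ) = _
          rw [hx, ← h0]
          exact this
        · rw [Equiv.swap_apply_of_ne_of_ne (Fin.succ_ne_zero _)
            (fun hh => hx (Fin.succ_injective _ hh))] at this
          exact this
    · rintro ⟨hE, h⟩
      have h0 : f (φ 0) = f (φ j.succ) := hE _ _ (Or.inr ⟨rfl, rfl⟩)
      refine ⟨fun a b hab => hE a b (Or.inl hab), ?_⟩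
      intro i
      refine Fin.cases ?_ (fun x => ?_) i
      · rw [Equiv.Perm.decomposeFin_symm_apply_zero]
        exact h0.symm
      · rw [Equiv.Perm.decomposeFin_symm_apply_succ]
        have hx' := h x
        by_cases hx : e x = j
        · rw [hx, Equiv.swap_apply_right, h0]
          simp only [hx] at hx'
          exact hx'
        · rw [Equiv.swap_apply_of_ne_of_ne (Fin.succ_ne_zero _)
            (fun hh => hx (Fin.succ_injective _ hh))]
          exact hx'

end Pool.Agent.Helper1.AD2.TLC
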